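import Pool.Agent.R972.OP.Stm3

/-!
# Neighbourhood of a union of simplices (OP2-MKC)
-/

set_option autoImplicit false

namespace Pool.Agent.R567.OP2

open MeasureTheory Set Filter Topology
open scoped ENNReal
open Pool.Agent.R972.OP

variable {n : ℕ}

/-- the part of the simplex of `p.1` near the common facet with `p.2` -/
def FF (e : ℝ) (p : Equiv.Perm (Fin n) × Equiv.Perm (Fin n)) : Set (Fin n → ℝ) :=
  {x | x ∈ Sx p.1 ∧ ∃ k l : Fin n, l.val = k.val + 1 ∧ p.2 = p.1 * Equiv.swap k l ∧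
    x (p.1 l) - x (p.1 k) ≤ 2 * e}

/-- the part of the simplex of `q.1` near two facets -/
def GG2 (e : ℝ) (q : Equiv.Perm (Fin n) × (Fin n × Fin n)) : Set (Fin n → ℝ) :=
  {x | x ∈ Sx q.1 ∧ ∃ l l' : Fin n, l.val = q.2.1.val + 1 ∧ l'.val = q.2.2.val + 1 ∧
    q.2.1 ≠ q.2.2 ∧ x (q.1 l) - x (q.1 q.2.1) ≤ 2 * e ∧ x (q.1 l') - x (q.1 q.2.2) ≤ 2 * e}

theorem swap_inj {k l i j : Fin n} (h1 : l.val = k.val + 1) (h2 : j.val = i.val + 1)
    (h : Equiv.swap k l = Equiv.swap i j) : k = i ∧ l = j := by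
  have hk : Equiv.swap i j k = l := by rw [← h]; exact Equiv.swap_apply_left k l
  by_cases hki : k = i
  · subst hki
    rw [Equiv.swap_apply_left] at hk
    exact ⟨rfl, hk.symm⟩
  · by_cases hkj : k = j
    · subst hkj
      rw [Equiv.swap_apply_right] at hk
      subst hk
      omega
    · rw [Equiv.swap_apply_of_ne_of_ne hki hkj] at hk
      subst hk
      omega

theorem vol_FF (h1 : S_GAP1) {e : ℝ} (he : 0 < e)
    (p : Equiv.Perm (Fin n) × Equiv.Perm (Fin n)) :
    volume (FF e p) ≤ ENNReal.ofReal (2 * e / (n - 1).factorial) := by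
  by_cases h : ∃ k l : Fin n, l.val = k.val + 1 ∧ p.2 = p.1 * Equiv.swap k l
  · obtain ⟨k, l, hkl, hp⟩ := h
    refine le_trans (measure_mono ?_) (h1 n p.1 k l hkl (2 * e) (by positivity))
    rintro x ⟨hx, k', l', hkl', hp', hd⟩
    have hs : Equiv.swap k l = Equiv.swap k' l' := by
      have : p.1 * Equiv.swap k l = p.1 * Equiv.swap k' l' := by rw [← hp, ← hp']
      exact mul_left_cancel this
    obtain ⟨rfl, rfl⟩ := swap_inj hkl hkl' hs
    exact ⟨hx, hd⟩
  · have : FF e p = ∅ := by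
      ext x
      simp only [FF, Set.mem_ofPred_eq, Set.mem_empty_iff_false, iff_false]
      rintro ⟨_, k, l, hkl, hp, _⟩
      exact h ⟨k, l, hkl, hp⟩
    rw [this]
    simp

theorem vol_GG2 (h2 : S_GAP2) {e : ℝ} (he : 0 < e)
    (q : Equiv.Perm (Fin n) × (Fin n × Fin n)) :
    volume (GG2 e q) ≤ ENNReal.ofReal ((2 * e) ^ 2) := by
  by_cases h : ∃ l l' : Fin n, l.val = q.2.1.val + 1 ∧ l'.val = q.2.2.val + 1 ∧ q.2.1 ≠ q.2.2
  · obtain ⟨l, l', hl, hl', hne⟩ := h
    refine le_trans (measure_mono ?_)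
      (h2 n q.1 q.2.1 l q.2.2 l' hl hl' hne (2 * e) (by positivity))
    rintro x ⟨hx, m, m', hm, hm', _, hd, hd'⟩
    have e1 : m = l := Fin.ext (by omega)
    have e2 : m' = l' := Fin.ext (by omega)
    subst e1 e2
    exact ⟨hx, hd, hd'⟩
  · have : GG2 e q = ∅ := by
      ext x
      simp only [GG2, Set.mem_ofPred_eq, Set.mem_empty_iff_false, iff_false]
      rintro ⟨_, l, l', hl, hl', hne, _⟩
      exact h ⟨l, l', hl, hl', hne⟩
    rw [this]
    simp

open Classical in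
theorem mkc (h1 : S_GAP1) (h2 : S_GAP2) (h3 : S_CMB) (h4 : S_VOL) : S_MKC := by
  intro n r E A hE hA e he
  set P : Finset (Equiv.Perm (Fin n) × Equiv.Perm (Fin n)) :=
    (A ×ˢ (E \ A)).filter (fun p : Equiv.Perm (Fin n) × Equiv.Perm (Fin n) =>
      ∃ i j : Fin n, j.val = i.val + 1 ∧ p.2 = p.1 * Equiv.swap i j) with hP
  have hPc : P.card = eb A E := rfl
  set Q : Finset (Equiv.Perm (Fin n) × (Fin n × Fin n)) := A ×ˢ Finset.univ with hQ
  have hQc : (Q.card : ℝ) = A.card * n ^ 2 := by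
    rw [hQ, Finset.card_product]
    simp [sq]
  have hsub : {x ∈ OPp r | ∃ y ∈ US (E \ A), ∀ i, |x i - y i| ≤ e} ⊆
      (OPp r \ US E) ∪ (US (E \ A) ∪ ((⋃ p ∈ P, FF e p) ∪ (⋃ q ∈ Q, GG2 e q))) := by
    rintro x ⟨hx, y, ⟨t, ht, hy⟩, hxy⟩
    by_cases hxE : x ∈ US E
    · right
      obtain ⟨s, hs, hxs⟩ := hxE
      by_cases hsA : s ∈ A
      · right
        have hst : s ≠ t := by
          rintro rfl
          exact (Finset.mem_sdiff.1 ht).2 hsA
        rcases h3 n s t hst x y e hxs hy hxy with ⟨k, l, hkl, hts, hd⟩ |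
          ⟨k, l, k', l', hkl, hkl', hne, hd, hd'⟩
        · left
          refine Set.mem_biUnion (x := (s, t)) ?_ ⟨hxs, k, l, hkl, hts, hd⟩
          rw [hP, Finset.mem_coe, Finset.mem_filter]
          exact ⟨Finset.mem_product.2 ⟨hsA, ht⟩, k, l, hkl, hts⟩
        · right
          refine Set.mem_biUnion (x := (s, (k, k'))) ?_ ⟨hxs, l, l', hkl, hkl', hne, hd, hd'⟩
          rw [hQ, Finset.mem_coe]
          exact Finset.mem_product.2 ⟨hsA, Finset.mem_univ _⟩
      · left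
        exact ⟨s, Finset.mem_sdiff.2 ⟨hs, hsA⟩, hxs⟩
    · left
      exact ⟨hx, hxE⟩
  refine le_trans (measure_mono hsub) ?_
  refine le_trans (measure_union_le _ _) ?_
  rw [(h4 n r E hE).2, zero_add]
  refine le_trans (measure_union_le _ _) ?_
  refine add_le_add le_rfl ?_
  refine le_trans (measure_union_le _ _) ?_
  have hf : (0 : ℝ) < ((n - 1).factorial : ℝ) := by
    exact_mod_cast Nat.factorial_pos _
  rw [ENNReal.ofReal_add (by positivity) (by positivity)]
  refine add_le_add ?_ ?_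
  · refine le_trans (measure_biUnion_finset_le _ _) ?_
    refine le_trans (Finset.sum_le_sum fun p _ => vol_FF h1 he p) ?_
    rw [Finset.sum_const, hPc, nsmul_eq_mul, mul_div_assoc (eb A E : ℝ) (2 * e),
      ENNReal.ofReal_mul (p := (eb A E : ℝ)) (by positivity), ENNReal.ofReal_natCast]
  · refine le_trans (measure_biUnion_finset_le _ _) ?_
    refine le_trans (Finset.sum_le_sum fun q _ => vol_GG2 h2 he q) ?_
    rw [Finset.sum_const, nsmul_eq_mul, ← hQc,
      ENNReal.ofReal_mul (by positivity), ENNReal.ofReal_natCast]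

end Pool.Agent.R567.OP2
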